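import Pool.Agent.W345.GK.All

set_option autoImplicit false

open Polynomial
open scoped TensorProduct

namespace Pool.Agent.Results.MP_a90b0f_nt.GekelerConverse

open Pool.Agent.W345.GK

section
variable (p : ℕ) [Fact p.Prime] {k : Type} [Field k] (P : k[X])

/-- the residue field `k[T]/P` -/
def Rs {k : Type} [Field k] (P : k[X]) : Type := k[X] ⧸ (Ideal.span {P} : Ideal k[X])

noncomputable instance : CommRing (Rs P) := Ideal.Quotient.commRing (Ideal.span {P})

/-- the class of `a` in `k[T]/P` -/
noncomputable def cls (a : k[X]) : Rs P := Ideal.Quotient.mk (Ideal.span {P}) a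

/-- the ring of Witt vectors of `k[T]/P` -/
def Wt : Type := WittVector p (Rs P)

noncomputable instance : CommRing (Wt p P) := WittVector.instCommRing p (Rs P)

/-- the Teichmueller representative of the class of `a` -/
noncomputable def teich (a : k[X]) : Wt p P := WittVector.teichmuller p (cls P a)

end

section
variable (k : Type) [Field k] (Fc : Type) [Field Fc] [Algebra k[X] Fc]

/-- the integral closure of `k[T]` in `Fc` -/
def OO : Type := integralClosure k[X] Fc

noncomputable instance : CommRing (OO k Fc) := Subalgebra.toCommRing (integralClosure k[X] Fc)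

instance : IsDomain (OO k Fc) := (inferInstance : IsDomain (integralClosure k[X] Fc))

/-- its ideal class group -/
def CG : Type := ClassGroup (OO k Fc)

noncomputable instance : CommGroup (CG k Fc) := instCommGroupClassGroup (OO k Fc)

/-- its ideal class group, written additively -/
def ClG : Type := Additive (CG k Fc)

noncomputable instance : AddCommGroup (ClG k Fc) := Additive.addCommGroup

/-- the `p`-primary part of the class group -/
def PCl (p : ℕ) : Type := pPart p (ClG k Fc)

noncomputable instance (p : ℕ) : AddCommGroup (PCl k Fc p) :=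
  AddSubgroup.toAddCommGroup (pPart p (ClG k Fc))

variable {k Fc}

/-- restriction of an automorphism to the integral closure -/
noncomputable def resO (σ : Fc ≃ₐ[k[X]] Fc) : OO k Fc ≃+* OO k Fc :=
  σ.mapIntegralClosure.toRingEquiv

/-- the action of an automorphism on the class group -/
noncomputable def actM (σ : Fc ≃ₐ[k[X]] Fc) : CG k Fc ≃* CG k Fc := ClassGroup.mulEquiv (resO σ)

/-- the action of an automorphism on the class group, as a homomorphism -/
noncomputable def actH (σ : Fc ≃ₐ[k[X]] Fc) : CG k Fc →* CG k Fc := (actM σ).toMonoidHom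

/-- the action of an automorphism on the class group, written additively -/
noncomputable def actG (σ : Fc ≃ₐ[k[X]] Fc) : ClG k Fc →+ ClG k Fc :=
  MonoidHom.toAdditive (actH σ)

/-- the action of an automorphism on the `p`-primary part of the class group -/
noncomputable def actP (p : ℕ) (σ : Fc ≃ₐ[k[X]] Fc) : PCl k Fc p →+ PCl k Fc p :=
  pPartMap p (actG σ)

/-- the same as a `ℤ`-linear map -/
noncomputable def actL (p : ℕ) (σ : Fc ≃ₐ[k[X]] Fc) : PCl k Fc p →ₗ[ℤ] PCl k Fc p :=
  (actP p σ).toIntLinearMap

end

section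
variable (p : ℕ) [Fact p.Prime] {k : Type} [Field k] (P : k[X]) (Fc : Type) [Field Fc]
  [Algebra k[X] Fc]

/-- `W ⊗ (p-primary part of the class group)` -/
def CW : Type := Wt p P ⊗[ℤ] PCl k Fc p

noncomputable instance : AddCommGroup (CW p P Fc) := TensorProduct.addCommGroup

noncomputable instance : Module (Wt p P) (CW p P Fc) := TensorProduct.leftModule

variable {Fc}

/-- the action of an automorphism on `W ⊗ (p-primary part of the class group)`: the identity of `W`
tensored with `actL p σ` -/
noncomputable def actCW (σ : Fc ≃ₐ[k[X]] Fc) : CW p P Fc →ₗ[ℤ] CW p P Fc :=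
  LinearMap.lTensor (Wt p P) (actL p σ)

end

/-- `Fc` is the `P`-th Carlitz cyclotomic field: the splitting field over `k(T)` of the Carlitz
polynomial `C_P` -/
def IsCarlitzField {k : Type} [Field k] [Fintype k] (P : k[X]) (Fc : Type) [Field Fc]
    [Algebra (RatFunc k) Fc] : Prop :=
  IsSplittingField (RatFunc k) Fc ((car P).map (algebraMap k[X] (RatFunc k)))

/-- `σ` is the automorphism attached to `a`: `σ λ = C_a(λ)` for all `λ` with `C_P(λ) = 0` -/
def IsSigma {k : Type} [Field k] [Fintype k] (P : k[X]) {Fc : Type} [Field Fc] [Algebra k[X] Fc]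
    (a : k[X]) (σ : Fc ≃ₐ[k[X]] Fc) : Prop :=
  ∀ y : Fc, aeval y (car P) = 0 → σ y = aeval y (car a)

/-- the `κ`-component of `W ⊗ (p-primary part of the class group)` is not zero -/
def ComponentNonzero (p : ℕ) [Fact p.Prime] {k : Type} [Field k] [Fintype k] (P : k[X]) (Fc : Type)
    [Field Fc] [Algebra k[X] Fc] (κ : ℕ) : Prop :=
  ∃ x : CW p P Fc, x ≠ 0 ∧ ∀ (a : k[X]) (σ : Fc ≃ₐ[k[X]] Fc), ¬ P ∣ a → IsSigma P a σ →
    actCW p P σ x = teich p P a ^ κ • x

/-- `P` divides `BC k κ'` for all `κ'` in the orbit of `κ` under multiplication by `p` -/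
def OrbitDivides (p : ℕ) {k : Type} [Field k] [Fintype k] (P : k[X]) (κ : ℕ) : Prop :=
  ∀ κ' : ℕ, 0 < κ' → κ' < Fintype.card k ^ P.natDegree - 1 →
    (∃ m : ℕ, κ' ≡ p ^ m * κ [MOD Fintype.card k ^ P.natDegree - 1]) → PDiv P (BC k κ')

/-- **Gekeler's converse to the theorem of Okada and Goss.**
`k` is a finite field of characteristic `p` with `q` elements, `P` a monic irreducible polynomial of
degree `d` over `k`, `Fc` the `P`-th Carlitz cyclotomic field, `0 < κ < q ^ d - 1` divisible by
`q - 1`. If `P` divides the Bernoulli-Carlitz number `BC k κ'` for every `κ'` with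
`0 < κ' < q ^ d - 1` congruent to `p ^ m * κ` modulo `q ^ d - 1` for some `m`, then the component of
`W(k[T]/P) ⊗ (p-primary part of the ideal class group of the integral closure of k[T] in Fc)`
on which `(k[T]/P)ˣ = Gal(Fc/k(T))` acts through the `κ`-th power of the Teichmueller character is
not zero. -/
theorem result (k : Type) [Field k] [Fintype k] (p : ℕ) [Fact p.Prime] [CharP k p] (P : k[X])
    (Fc : Type) [Field Fc] [Algebra k[X] Fc] [Algebra (RatFunc k) Fc]
    [IsScalarTower k[X] (RatFunc k) Fc] (hF : IsCarlitzField P Fc) (κ : ℕ)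
    (hP : P.Monic) (hirr : Irreducible P) (hκ0 : 0 < κ)
    (hκ1 : κ < Fintype.card k ^ P.natDegree - 1) (hκ2 : (Fintype.card k - 1) ∣ κ)
    (hB : OrbitDivides p P κ) : ComponentNonzero p P Fc κ :=
  haveI : IsSplittingField (RatFunc k) Fc ((car P).map (algebraMap k[X] (RatFunc k))) := hF
  main k p P Fc κ hP hirr hκ0 hκ1 hκ2 hB

end Pool.Agent.Results.MP_a90b0f_nt.GekelerConverse
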